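import Pool.Agent.Helper60.EV2.Base
import Pool.Agent.Helper60.Burau.Family

/-!
# Existence and uniqueness of the Conway polynomial of the diagrams on a shadow with an index function

`Cs nab`: the skein relation, the value `1` for a diagram of a knot which is descending from some base point, the value `0` for a diagram in which a sublink lies above the rest.
-/

set_option autoImplicit false

namespace Pool.Agent.Helper60.EV2

open Pool.Agent.Helper85.Exp Polynomial

variable {P : Type} [Fintype P] {G : Sh P}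

/-- The sign of a status. -/
def sgn : St → ℤ
  | .pos => 1
  | .neg => -1
  | .smooth => 0

open Classical in
/-- The writhe. -/
noncomputable def wr (D : Dg G) : ℤ := ∑ i : P, if G.op i ≠ i ∧ G.lf i = true then sgn (D.st i) else 0

theorem zpow_sum' {H : Type*} [CommGroup H] (u : H) (g : P → ℤ) : u ^ ∑ i, g i = ∏ i, u ^ g i := by
  classical
  induction (Finset.univ : Finset P) using Finset.induction_on with
  | empty => simp
  | insert a s ha ih => rw [Finset.sum_insert ha, Finset.prod_insert ha, zpow_add, ih]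

theorem scal_eq [DecidableEq P] {R : Type*} [CommRing R] (u : Rˣ) (D : Dg G) : scal (u : R) ((u⁻¹ : Rˣ) : R) D = ((u ^ (-wr D) : Rˣ) : R) := by
  unfold scal wr
  rw [← Finset.sum_neg_distrib, zpow_sum', Units.coe_prod]
  refine Finset.prod_congr rfl fun i _ => ?_
  by_cases hi : G.op i ≠ i ∧ G.lf i = true
  · rw [if_pos hi, if_pos hi]
    cases D.st i <;> simp [fac, sgn]
  · rw [if_neg hi, if_neg hi]
    simp

/-- The properties of the Conway polynomial of the diagrams on `G`. -/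
structure Cs (nab : Dg G → ℤ[X]) : Prop where
  skein : ∀ (D : Dg G) (i : P), G.op i ≠ i → nab (D.upd i .pos) - nab (D.upd i .neg) = X * nab (D.upd i .smooth)
  knot : ∀ (D : Dg G) (b : P), (∀ i, ∃ k : ℕ, D.tr^[k] b = i) → Des D b → nab D = 1
  split : ∀ (D : Dg G) (C : Finset P), C.Nonempty → C ≠ Finset.univ → (∀ i, D.tr i ∈ C ↔ i ∈ C) →
    (∀ i ∈ C, G.op i ∉ C → D.st i ≠ .smooth → D.ovr i = true) → nab D = 0

/-- The properties for one base point. -/
theorem Cs.cw {nab : Dg G → ℤ[X]} (h : Cs nab) (b : P) : Cw X 1 b nab where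
  skein := h.skein
  knot D h1 h2 := h.knot D b h1 h2
  split D h1 h2 := by
    classical
    obtain ⟨i, hi⟩ := h1
    have hmem : ∀ x, x ∈ (Finset.univ.filter fun x => ∃ k : ℕ, D.tr^[k] b = x) ↔ ∃ k : ℕ, D.tr^[k] b = x := fun x => by simp
    refine h.split D (Finset.univ.filter fun x => ∃ k : ℕ, D.tr^[k] b = x) ⟨b, (hmem b).2 ⟨0, rfl⟩⟩ ?_ ?_ ?_
    · intro e
      obtain ⟨k, hk⟩ := (hmem i).1 (Finset.eq_univ_iff_forall.1 e i)
      exact hi k hk
    · intro x
      rw [hmem, hmem]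
      constructor
      · rintro ⟨k, hk⟩
        obtain ⟨n, hn, _, hper⟩ := tr_period D b
        refine ⟨k + (n - 1), ?_⟩
        have h1 : D.tr^[k + n] b = D.tr x := by rw [Function.iterate_add_apply, hper, hk]
        rw [show k + n = (k + (n - 1)) + 1 by omega, Function.iterate_succ_apply'] at h1
        exact tr_inj D h1
      · rintro ⟨k, hk⟩
        exact ⟨k + 1, by rw [Function.iterate_succ_apply', hk]⟩
    · intro x hx hox hsx
      obtain ⟨k, hk⟩ := (hmem x).1 hx
      have h3 := h2 k (by rw [hk]; exact hsx) (by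
        intro l _ e
        apply hox
        rw [hmem, ← hk]
        exact ⟨l, e⟩)
      rwa [hk] at h3

/-- Uniqueness. -/
theorem Cs.unique [Nonempty P] {nab nab' : Dg G → ℤ[X]} (h : Cs nab) (h' : Cs nab') : nab = nab' := by
  obtain ⟨b⟩ := ‹Nonempty P›
  funext D
  exact Cw.unique (h.cw b) (h'.cw b) D

/-- The unit `s`. -/
noncomputable def su : Burau.QRˣ := ⟨Burau.ss, Burau.tt, Burau.hst, by rw [mul_comm]; exact Burau.hst⟩

/-- Existence. -/
theorem exists_cs {κ : P → ℤ} (hκ : Ix G κ) (b : P) (n : ℤ)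
    (hw : ∀ D : Dg G, (∀ i, ∃ k : ℕ, D.tr^[k] b = i) → Des D b → wr D = n) : ∃ nab : Dg G → ℤ[X], Cs nab := by
  classical
  let f : Dg G → ℤ[X] := fun D => (((su ^ n : Burau.QRˣ) : Burau.QR) * F (su : Burau.QR) ((su⁻¹ : Burau.QRˣ) : Burau.QR) b D).re
  have hst : (su : Burau.QR) * ((su⁻¹ : Burau.QRˣ) : Burau.QR) = 1 := Units.mul_inv su
  have hsk : ∀ (D : Dg G) (i : P), G.op i ≠ i → f (D.upd i .pos) - f (D.upd i .neg) = X * f (D.upd i .smooth) := by
    intro D i hi
    have h1 := F_skein (su : Burau.QR) ((su⁻¹ : Burau.QRˣ) : Burau.QR) hst b D i hi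
    simp only [f]
    rw [← QuadraticAlgebra.re_sub, ← mul_sub, h1, mul_left_comm]
    exact Burau.re_mul _
  have hsp : ∀ (D : Dg G) (C : Finset P), C.Nonempty → C ≠ Finset.univ → (∀ i, D.tr i ∈ C ↔ i ∈ C) →
      (∀ i ∈ C, G.op i ∉ C → D.st i ≠ .smooth → D.ovr i = true) → f D = 0 := by
    intro D C h1 h2 h3 h4
    simp only [f]
    rw [F_split_all hκ su b D C h1 h2 h3 h4, mul_zero]
    rfl
  have hk : ∀ D : Dg G, (∀ i, ∃ k : ℕ, D.tr^[k] b = i) → Des D b → f D = 1 := by
    intro D h1 h2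
    simp only [f]
    rw [F_knot _ _ b D h1 h2, scal_eq, hw D h1 h2, ← Units.val_mul, ← zpow_add, add_neg_cancel, zpow_zero]
    rfl
  refine ⟨f, hsk, ?_, hsp⟩
  intro D b' h1 h2
  have hall : ∀ i, ∃ k : ℕ, D.tr^[k] b = i := by
    intro i
    obtain ⟨p, hp⟩ := h1 b
    obtain ⟨q, hq⟩ := h1 i
    obtain ⟨m, hm, _, hper⟩ := tr_period D b'
    have h3 : ∀ r : ℕ, D.tr^[m * r] b' = b' := by
      intro r
      induction r with
      | zero => rfl
      | succ r ihr => rw [Nat.mul_succ, Function.iterate_add_apply, hper, ihr]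
    have h4 : p ≤ m * p := Nat.le_mul_of_pos_left p hm
    refine ⟨q + (m * p - p), ?_⟩
    rw [← hp, ← Function.iterate_add_apply, show q + (m * p - p) + p = q + m * p by omega,
      Function.iterate_add_apply, h3, hq]
  obtain ⟨k, hk'⟩ := hall b'
  exact knot_all hsk hsp b hk k D hall (by rw [hk']; exact h2)

/-- **The determinant formula** (Alexander's theorem): `∇(1/s - s) = s^(n - writhe) det (1 - B + E_bb)`, where `n` is the writhe of the descending one-component diagrams on `G`. -/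
theorem conway_formula [DecidableEq P] {R : Type*} [CommRing R] (u : Rˣ) (b : P) (n : ℤ)
    (hw : ∀ D : Dg G, (∀ i, ∃ k : ℕ, D.tr^[k] b = i) → Des D b → wr D = n) {nab : Dg G → ℤ[X]} (h : Cw X 1 b nab) (D : Dg G) :
    aeval (((u⁻¹ : Rˣ) : R) - (u : R)) (nab D) =
      ((u ^ (n - wr D) : Rˣ) : R) * W G.nxt G.op (kd (u : R) ((u⁻¹ : Rˣ) : R) D) b := by
  have h1 := F_cw (u : R) ((u⁻¹ : Rˣ) : R) ((u ^ (-n) : Rˣ) : R) (Units.mul_inv u) b (G := G) (fun D h2 h3 => by
    rw [scal_eq, hw D h2 h3])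
  have h2 := h.aeval h1 D
  unfold F at h2
  rw [scal_eq] at h2
  have h3 : ((u ^ n : Rˣ) : R) * ((u ^ (-n) : Rˣ) : R) = 1 := by
    rw [← Units.val_mul, ← zpow_add, add_neg_cancel, zpow_zero, Units.val_one]
  have h4 : ((u ^ (n - wr D) : Rˣ) : R) = ((u ^ n : Rˣ) : R) * ((u ^ (-wr D) : Rˣ) : R) := by
    rw [← Units.val_mul, ← zpow_add, sub_eq_add_neg]
  rw [h4, mul_assoc, h2, ← mul_assoc, h3, one_mul]

end Pool.Agent.Helper60.EV2
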