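import Pool.Agent.Helper60.EV2.Walk

/-!
# Elimination of the feed-forward part of a walk determinant
-/

set_option autoImplicit false

namespace Pool.Agent.Helper60.EV2

open Matrix

variable {P A : Type*} [Fintype P] [DecidableEq P] [Fintype A] [DecidableEq A] {R : Type*} [CommRing R]

/-- The determinant of `1 - B` for a feed-forward network. -/
theorem det_forward {I : Type*} [Fintype I] [DecidableEq I] (B : Matrix I I R) (T : I → ℕ)
    (h : ∀ i j, T j ≤ T i → B i j = 0) : (1 - B).det = 1 := by
  have h1 : BlockTriangular (1 - B) T := by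
    intro i j hij
    rw [Matrix.sub_apply, h i j hij.le, one_apply_ne (fun e => by rw [e] at hij; exact lt_irrefl _ hij), sub_zero]
  rw [h1.det]
  refine Finset.prod_eq_one fun k _ => ?_
  have h2 : (1 - B).toSquareBlock T k = 1 := by
    ext i j
    rw [toSquareBlock_def]
    simp only [of_apply, Matrix.sub_apply]
    rw [h i.1 j.1 (by rw [i.2, j.2]), sub_zero]
    simp [one_apply, Subtype.ext_iff]
  rw [h2, det_one]

/-- Elimination. -/
theorem det_schur (B : Matrix P P R) (a : A → P) (ha : Function.Injective a) (Y : A → P → R)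
    (hYA : ∀ x x', Y x (a x') = if x = x' then 1 else 0) (hYI : ∀ x p, (∀ x', a x' ≠ p) → Y x p = ∑ p', Y x p' * B p' p)
    (T : P → ℕ) (hT : ∀ p p', (∀ x, a x ≠ p) → (∀ x, a x ≠ p') → T p' ≤ T p → B p p' = 0) (x0 : A) :
    (1 - B + single (a x0) (a x0) 1).det =
      (1 - (Matrix.of fun x x' => ∑ p', Y x p' * B p' (a x')) + single x0 x0 1 : Matrix A A R).det := by
  classical
  let I := {p : P // ∀ x, a x ≠ p}
  let e : A ⊕ I → P := Sum.elim a Subtype.val
  have he : Function.Bijective e := by
    constructor
    · rintro (x | x) (y | y) h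
      · exact congrArg Sum.inl (ha h)
      · exact absurd h (y.2 x)
      · exact absurd h.symm (x.2 y)
      · exact congrArg Sum.inr (Subtype.ext h)
    · intro p
      by_cases hp : ∃ x, a x = p
      · obtain ⟨x, hx⟩ := hp
        exact ⟨Sum.inl x, hx⟩
      · push Not at hp
        exact ⟨Sum.inr ⟨p, hp⟩, rfl⟩
  let E : A ⊕ I ≃ P := Equiv.ofBijective e he
  have hEl : ∀ x, E (Sum.inl x) = a x := fun _ => rfl
  have hEr : ∀ p : I, E (Sum.inr p) = p.1 := fun _ => rfl
  let M : Matrix P P R := 1 - B + single (a x0) (a x0) 1
  let L : Matrix (A ⊕ I) (A ⊕ I) R := fromBlocks 1 (Matrix.of fun x (p : I) => Y x p.1) 0 1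
  have hL : L.det = 1 := by
    rw [det_fromBlocks_zero₂₁, det_one, det_one, mul_one]
  have hsum : ∀ (x : A) (q : P), ∑ p, Y x p * M p q = Y x q - ∑ p, Y x p * B p q + if a x0 = q then (if x = x0 then 1 else 0) else 0 := by
    intro x q
    have e1 : ∀ p, Y x p * M p q = Y x p * (1 : Matrix P P R) p q - Y x p * B p q + Y x p * (single (a x0) (a x0) (1 : R)) p q := by
      intro p
      simp only [M, Matrix.add_apply, Matrix.sub_apply]
      ring
    rw [Finset.sum_congr rfl fun p _ => e1 p, Finset.sum_add_distrib, Finset.sum_sub_distrib]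
    congr 1
    · congr 1
      rw [Finset.sum_eq_single q]
      · rw [one_apply_eq, mul_one]
      · intro p _ hp
        rw [one_apply_ne hp, mul_zero]
      · intro h
        exact absurd (Finset.mem_univ q) h
    · rw [Finset.sum_eq_single (a x0)]
      · rw [hYA, single_apply]
        by_cases h1 : a x0 = q <;> simp [h1]
      · intro p _ hp
        rw [single_apply_of_row_ne (Ne.symm hp), mul_zero]
      · intro h
        exact absurd (Finset.mem_univ _) h
  have hprod : L * M.submatrix E E = fromBlocks
      (1 - (Matrix.of fun x x' => ∑ p', Y x p' * B p' (a x')) + single x0 x0 1) 0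
      (Matrix.of fun (p : I) x => M p.1 (a x)) (Matrix.of fun (p q : I) => M p.1 q.1) := by
    have hrow : ∀ (x : A) (q : P), ∑ z : A ⊕ I, (Sum.elim (fun y => if x = y then (1 : R) else 0) (fun p : I => Y x p.1) z) * M (E z) q =
        ∑ p, Y x p * M p q := by
      intro x q
      rw [← Equiv.sum_comp E]
      refine Finset.sum_congr rfl fun z _ => ?_
      rcases z with y | p
      · simp only [Sum.elim_inl, hEl, hYA]
      · simp only [Sum.elim_inr, hEr]
    ext z w
    rw [mul_apply]
    rcases z with x | p
    · have e1 : ∀ z : A ⊕ I, L (Sum.inl x) z = Sum.elim (fun y => if x = y then (1 : R) else 0) (fun p : I => Y x p.1) z := by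
        rintro (y | p)
        · simp [L, one_apply]
        · simp [L]
      simp only [e1, submatrix_apply]
      rcases w with x' | q
      · rw [hrow, hEl, hsum, fromBlocks_apply₁₁]
        simp only [Matrix.add_apply, Matrix.sub_apply, of_apply, hYA, one_apply, single_apply]
        congr 1
        by_cases h1 : x0 = x'
        · by_cases h2 : x0 = x
          · simp [h1, h2.symm]
          · simp [h1]
            simp [← h1, Ne.symm h2, h2]
        · have h3 : a x0 ≠ a x' := fun h => h1 (ha h)
          simp [h1, h3]
      · rw [hrow, hEr, hsum, fromBlocks_apply₁₂, ← hYI x q.1 q.2, sub_self, if_neg (q.2 x0), add_zero]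
        rfl
    · have e1 : ∀ z : A ⊕ I, L (Sum.inr p) z = if z = Sum.inr p then 1 else 0 := by
        rintro (y | r)
        · simp [L]
        · by_cases h1 : r = p
          · simp [L, h1]
          · have h2 : p ≠ r := Ne.symm h1
            simp [L, h1, h2, one_apply]
      simp only [e1, submatrix_apply]
      rw [Finset.sum_eq_single (Sum.inr p)]
      · rcases w with x' | q
        · rw [fromBlocks_apply₂₁]
          simp [hEr, hEl]
        · rw [fromBlocks_apply₂₂]
          simp [hEr]
      · intro z _ hz
        rw [if_neg hz, zero_mul]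
      · intro h
        exact absurd (Finset.mem_univ _) h
  have hI : (Matrix.of fun (p q : I) => M p.1 q.1).det = 1 := by
    have e1 : (Matrix.of fun (p q : I) => M p.1 q.1) = 1 - Matrix.of fun (p q : I) => B p.1 q.1 := by
      ext p q
      simp only [of_apply, M, Matrix.add_apply, Matrix.sub_apply, single_apply_of_row_ne (p.2 x0), add_zero]
      congr 1
      by_cases h : p = q
      · rw [h, one_apply_eq, one_apply_eq]
      · rw [one_apply_ne h, one_apply_ne (fun e => h (Subtype.ext e))]
    rw [e1]
    exact det_forward _ (fun p : I => T p.1) fun p q hpq => hT p.1 q.1 p.2 q.2 hpq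
  have h1 : (L * M.submatrix E E).det = M.det := by
    rw [det_mul, hL, one_mul, det_submatrix_equiv_self]
  rw [hprod, det_fromBlocks_zero₁₂, hI, mul_one] at h1
  exact h1.symm

end Pool.Agent.Helper60.EV2
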