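import Pool.Agent.Helper60.EV2.Walk
import Pool.Agent.Helper85.EV2.Exp

/-!
# The value of a diagram as a walk determinant
-/

set_option autoImplicit false

namespace Pool.Agent.Helper60.EV2

open Pool.Agent.Helper85.Exp

variable {P : Type} [Fintype P] [DecidableEq P] {G : Sh P} {R : Type*} [CommRing R]

/-- The kinds of the passages of a diagram. -/
def kd (s t : R) (D : Dg G) (i : P) : Kd R :=
  match D.st i with
  | .pos => if G.lf i = true then .un else .ov (s ^ 2)
  | .neg => if G.lf i = true then .ov (t ^ 2) else .un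
  | .smooth => .sm

/-- The factor of a crossing. -/
def fac (s t : R) : St → R
  | .pos => t
  | .neg => s
  | .smooth => 1

/-- The product over the crossings. -/
def scal (s t : R) (D : Dg G) : R := ∏ i : P, if G.op i ≠ i ∧ G.lf i = true then fac s t (D.st i) else 1

/-- The value. -/
def F (s t : R) (b : P) (D : Dg G) : R := scal s t D * W G.nxt G.op (kd s t D) b

omit [Fintype P] [DecidableEq P] in
theorem upd_op (D : Dg G) (i : P) (u : St) : D.upd (G.op i) u = D.upd i u := by
  ext j
  by_cases h : j = i ∨ j = G.op i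
  · rw [upd_st D i u j h, upd_st D (G.op i) u j (by rw [G.op_op]; exact h.symm)]
  · rw [not_or] at h
    rw [upd_st_ne D i u j h.1 h.2, upd_st_ne D (G.op i) u j h.2 (by rw [G.op_op]; exact h.1)]

omit [Fintype P] in
theorem kd_upd (s t : R) (D : Dg G) (i : P) (u : St) :
    kd s t (D.upd i u) = Function.update (Function.update (kd s t D) (G.op i)
      (kd s t (D.upd i u) (G.op i))) i (kd s t (D.upd i u) i) := by
  funext j
  by_cases h1 : j = i
  · subst h1
    rw [Function.update_self]
  · by_cases h2 : j = G.op i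
    · subst h2
      rw [Function.update_of_ne h1, Function.update_self]
    · rw [Function.update_of_ne h1, Function.update_of_ne h2]
      unfold kd
      rw [upd_st_ne D i u j h1 h2]

omit [Fintype P] [DecidableEq P] in
theorem st_upd_self (D : Dg G) (i : P) (u : St) : (D.upd i u).st i = u := upd_st D i u i (Or.inl rfl)

omit [Fintype P] [DecidableEq P] in
theorem st_upd_op (D : Dg G) (i : P) (u : St) : (D.upd i u).st (G.op i) = u := upd_st D i u _ (Or.inr rfl)

theorem scal_upd (s t : R) (D : Dg G) (i : P) (hi : G.op i ≠ i) (hl : G.lf i = true) (u : St) :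
    scal s t (D.upd i u) = fac s t u * scal s t (D.upd i .smooth) := by
  unfold scal
  rw [← Finset.mul_prod_erase Finset.univ _ (Finset.mem_univ i), ← Finset.mul_prod_erase Finset.univ
    (fun j => if G.op j ≠ j ∧ G.lf j = true then fac s t ((D.upd i .smooth).st j) else 1) (Finset.mem_univ i),
    if_pos ⟨hi, hl⟩, if_pos ⟨hi, hl⟩, st_upd_self, st_upd_self]
  have e : ∏ j ∈ Finset.univ.erase i, (if G.op j ≠ j ∧ G.lf j = true then fac s t ((D.upd i u).st j) else 1) =
      ∏ j ∈ Finset.univ.erase i, (if G.op j ≠ j ∧ G.lf j = true then fac s t ((D.upd i .smooth).st j) else 1) := by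
    refine Finset.prod_congr rfl fun j hj => ?_
    have hji : j ≠ i := (Finset.mem_erase.1 hj).1
    by_cases h2 : j = G.op i
    · have h3 : ¬ (G.op j ≠ j ∧ G.lf j = true) := by
        rintro ⟨_, h4⟩
        rw [h2, G.lf_op i hi, hl] at h4
        exact absurd h4 (by simp)
      rw [if_neg h3, if_neg h3]
    · rw [upd_st_ne D i u j hji h2, upd_st_ne D i .smooth j hji h2]
  rw [e]
  simp [fac]

theorem F_skein_aux (s t : R) (hst : s * t = 1) (b : P) (D : Dg G) (i : P) (hi : G.op i ≠ i) (hl : G.lf i = true) :
    F s t b (D.upd i .pos) - F s t b (D.upd i .neg) = (t - s) * F s t b (D.upd i .smooth) := by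
  have ho : G.lf (G.op i) = false := by rw [G.lf_op i hi, hl]; rfl
  have k1 : kd s t (D.upd i .pos) = Function.update (Function.update (kd s t D) (G.op i) (.ov (s ^ 2))) i .un := by
    have e1 : kd s t (D.upd i .pos) (G.op i) = .ov (s ^ 2) := by simp [kd, st_upd_op, ho]
    have e2 : kd s t (D.upd i .pos) i = .un := by simp [kd, st_upd_self, hl]
    rw [kd_upd, e1, e2]
  have k2 : kd s t (D.upd i .neg) = Function.update (Function.update (kd s t D) i (.ov (t ^ 2))) (G.op i) .un := by
    have e1 : kd s t (D.upd i .neg) (G.op i) = .un := by simp [kd, st_upd_op, ho]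
    have e2 : kd s t (D.upd i .neg) i = .ov (t ^ 2) := by simp [kd, st_upd_self, hl]
    rw [kd_upd, e1, e2, Function.update_comm hi]
  have k3 : kd s t (D.upd i .smooth) = Function.update (Function.update (kd s t D) (G.op i) .sm) i .sm := by
    have e1 : kd s t (D.upd i .smooth) (G.op i) = .sm := by simp [kd, st_upd_op]
    have e2 : kd s t (D.upd i .smooth) i = .sm := by simp [kd, st_upd_self]
    rw [kd_upd, e1, e2]
  have h := W_skein G.nxt G.op (kd s t D) hi (G.op_op i) rfl s t hst b
  unfold F
  rw [scal_upd s t D i hi hl .pos, scal_upd s t D i hi hl .neg, k1, k2, k3]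
  simp only [fac]
  linear_combination scal s t (D.upd i .smooth) * h

theorem F_skein (s t : R) (hst : s * t = 1) (b : P) (D : Dg G) (i : P) (hi : G.op i ≠ i) :
    F s t b (D.upd i .pos) - F s t b (D.upd i .neg) = (t - s) * F s t b (D.upd i .smooth) := by
  cases hl : G.lf i
  · have hi' : G.op (G.op i) ≠ G.op i := by rw [G.op_op]; exact Ne.symm hi
    have h := F_skein_aux s t hst b D (G.op i) hi' (by rw [G.lf_op i hi, hl]; rfl)
    simpa only [upd_op] using h
  · exact F_skein_aux s t hst b D i hi hl

omit [Fintype P] [DecidableEq P] in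
theorem ovr_op (D : Dg G) (i : P) (hi : G.op i ≠ i) (hs : D.st i ≠ .smooth) : D.ovr (G.op i) = !D.ovr i := by
  unfold Dg.ovr
  rw [D.st_op]
  cases h : D.st i
  · simp only [G.lf_op i hi]
  · simp only [G.lf_op i hi]
  · exact absurd h hs

omit [Fintype P] in
/-- The steps of the walk. -/
theorem B_ne_zero (s t : R) (D : Dg G) {i j : P} (h : B G.nxt G.op (kd s t D) i j ≠ 0) :
    j = D.tr i ∨ (G.op i ≠ i ∧ D.st i ≠ .smooth ∧ D.ovr i = true ∧ j = D.tr (G.op i)) := by
  by_cases hs : D.st i = .smooth
  · left
    have h1 : B G.nxt G.op (kd s t D) i j = if G.nxt.symm j = G.op i then 1 else 0 := by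
      simp only [B, Matrix.submatrix_apply, id_eq, U, kd, hs]
    rw [h1] at h
    have h2 : G.nxt.symm j = G.op i := by
      by_contra h3
      exact h (if_neg h3)
    rw [Dg.tr, if_pos hs, ← h2, Equiv.apply_symm_apply]
  · have ht : D.tr i = G.nxt i := by rw [Dg.tr, if_neg hs]
    have hto : D.tr (G.op i) = G.nxt (G.op i) := by rw [Dg.tr, if_neg (by rw [D.st_op]; exact hs)]
    by_cases h1 : j = D.tr i
    · exact Or.inl h1
    · right
      have h2 : G.nxt.symm j ≠ i := fun e => h1 (by rw [ht, ← e, Equiv.apply_symm_apply])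
      have key : D.ovr i = true ∧ G.nxt.symm j = G.op i := by
        by_contra hcon
        apply h
        cases hst : D.st i
        · cases hl : G.lf i
          · have hov : D.ovr i = true := by simp [Dg.ovr, hst, hl]
            have h3 : G.nxt.symm j ≠ G.op i := fun e => hcon ⟨hov, e⟩
            have hk : kd s t D i = .ov (s ^ 2) := by simp [kd, hst, hl]
            simp [B, U, hk, h2, h3]
          · have hk : kd s t D i = .un := by simp [kd, hst, hl]
            simp [B, U, hk, h2]
        · cases hl : G.lf i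
          · have hk : kd s t D i = .un := by simp [kd, hst, hl]
            simp [B, U, hk, h2]
          · have hov : D.ovr i = true := by simp [Dg.ovr, hst, hl]
            have h3 : G.nxt.symm j ≠ G.op i := fun e => hcon ⟨hov, e⟩
            have hk : kd s t D i = .ov (t ^ 2) := by simp [kd, hst, hl]
            simp [B, U, hk, h2, h3]
        · exact absurd hst hs
      refine ⟨fun e => h2 (by rw [key.2, e]), hs, key.1, ?_⟩
      rw [hto, ← key.2, Equiv.apply_symm_apply]

theorem F_split (s t : R) (b : P) (D : Dg G) (h : ∃ i, ∀ k : ℕ, D.tr^[k] b ≠ i) (hD : Des D b) : F s t b D = 0 := by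
  classical
  unfold F
  rw [W_split G.nxt G.op (kd s t D) b (fun i => ∃ k : ℕ, D.tr^[k] b = i) ⟨0, rfl⟩, mul_zero]
  · obtain ⟨i, hi⟩ := h
    exact ⟨i, fun ⟨k, hk⟩ => hi k hk⟩
  · intro i hi j hj
    by_contra hB
    obtain ⟨n, hn, _, hper⟩ := tr_period D b
    have hback : ∀ x : P, (∃ k : ℕ, D.tr^[k] b = D.tr x) → ∃ k : ℕ, D.tr^[k] b = x := by
      rintro x ⟨k, hk⟩
      have h1 : D.tr^[k + n] b = D.tr x := by
        rw [Function.iterate_add_apply, hper, hk]
      refine ⟨k + n - 1, ?_⟩
      have h2 : k + n = (k + n - 1) + 1 := by omega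
      rw [h2, Function.iterate_succ_apply'] at h1
      exact tr_inj D h1
    rcases B_ne_zero s t D hB with rfl | ⟨h1, h2, h3, rfl⟩
    · exact hi (hback i hj)
    · obtain ⟨k, hk⟩ := hback _ hj
      have h4 := hD k (by rw [hk, D.st_op]; exact h2) (by
        intro l _ hl
        rw [hk, G.op_op] at hl
        exact hi ⟨l, hl⟩)
      rw [hk, ovr_op D i h1 h2, h3] at h4
      exact absurd h4 (by simp)

theorem F_knot (s t : R) (b : P) (D : Dg G) (h : ∀ i, ∃ k : ℕ, D.tr^[k] b = i) (hD : Des D b) : F s t b D = scal s t D := by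
  classical
  obtain ⟨n0, hn0, _, hper0⟩ := tr_period D b
  have hex : ∀ i, ∃ k : ℕ, 0 < k ∧ D.tr^[k] b = i := by
    intro i
    obtain ⟨k, hk⟩ := h i
    exact ⟨k + n0, by omega, by rw [Function.iterate_add_apply, hper0, hk]⟩
  let T : P → ℕ := fun i => Nat.find (hex i)
  have hT1 : ∀ i, 0 < T i := fun i => (Nat.find_spec (hex i)).1
  have hT2 : ∀ i, D.tr^[T i] b = i := fun i => (Nat.find_spec (hex i)).2
  have hT3 : ∀ i k, 0 < k → D.tr^[k] b = i → T i ≤ k := fun i k h1 h2 => Nat.find_min' (hex i) ⟨h1, h2⟩
  have hinj : Function.Injective T := fun i j hij => by rw [← hT2 i, hij, hT2]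
  have hb : ∀ i, T i ≤ T b := by
    intro i
    have h1 := closed_orbit D b (hT2 b) (T i)
    rw [hT2 i] at h1
    by_cases h2 : T i % T b = 0
    · rw [h2, Function.iterate_zero_apply] at h1
      rw [h1]
    · exact (hT3 i _ (Nat.pos_of_ne_zero h2) h1.symm).trans (Nat.mod_lt _ (hT1 b)).le
  have hlt : ∀ i, i ≠ b → T i < T b := fun i hi => lt_of_le_of_ne (hb i) fun e => hi (hinj e)
  have hstep : ∀ i, i ≠ b → T i < T (D.tr i) := by
    intro i hi
    by_contra hcon
    push Not at hcon
    have h1 : D.tr^[T (D.tr i)] b = D.tr^[T i + 1] b := by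
      rw [hT2, Function.iterate_succ_apply', hT2]
    have h2 := cancel D b (by omega) h1
    have h3 := hT3 b _ (by omega) h2
    have h4 := hlt i hi
    have h5 := hT1 (D.tr i)
    omega
  unfold F
  rw [W_forward G.nxt G.op (kd s t D) b T hinj hb, mul_one]
  intro i hi j hj
  by_contra hB
  rcases B_ne_zero s t D hB with rfl | ⟨h1, h2, h3, rfl⟩
  · exact absurd (hstep i hi) (not_lt.2 hj)
  · have hob : G.op i ≠ b := by
      intro e
      have h4 := hD 0 (by rw [Function.iterate_zero_apply, ← e, D.st_op]; exact h2) (by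
        intro l hl
        rw [Nat.le_zero.1 hl, Function.iterate_zero_apply, ← e, G.op_op]
        exact h1)
      rw [Function.iterate_zero_apply, ← e, ovr_op D i h1 h2, h3] at h4
      exact absurd h4 (by simp)
    have h5 := hstep (G.op i) hob
    have h6 : T i < T (G.op i) := by
      by_contra hcon
      push Not at hcon
      have h7 : T (G.op i) < T i := lt_of_le_of_ne hcon fun e => h1 (hinj e)
      have h4 := hD (T (G.op i)) (by rw [hT2, D.st_op]; exact h2) (by
        intro l hl e
        rw [hT2, G.op_op] at e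
        rcases Nat.eq_zero_or_pos l with h8 | h8
        · rw [h8, Function.iterate_zero_apply] at e
          exact hi e.symm
        · have := hT3 i l h8 e
          omega)
      rw [hT2, ovr_op D i h1 h2, h3] at h4
      exact absurd h4 (by simp)
    omega

/-- The walk determinant has the properties of the Conway polynomial, if the factor of the descending knots is constant. -/
theorem F_cw (s t c : R) (hst : s * t = 1) (b : P)
    (hw : ∀ D : Dg G, (∀ i, ∃ k : ℕ, D.tr^[k] b = i) → Des D b → scal s t D = c) : Cw (t - s) c b (F (G := G) s t b) where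
  skein D i hi := F_skein s t hst b D i hi
  knot D h hD := by rw [F_knot s t b D h hD, hw D h hD]
  split D h hD := F_split s t b D h hD

end Pool.Agent.Helper60.EV2
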