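import Pool.Agent.Helper60.EV2.Val
import Mathlib.Algebra.QuadraticAlgebra.Basic

/-!
# All base points, all sublinks; existence of the Conway polynomial of the diagrams on a shadow with an index function
-/

set_option autoImplicit false

namespace Pool.Agent.Helper60.EV2

open Pool.Agent.Helper85.Exp Matrix

variable {P : Type} [Fintype P] [DecidableEq P] {G : Sh P} {R : Type*} [CommRing R]

/-- `κ` is an index function (the index of the face to the right of the edge into the passage). -/
structure Ix (G : Sh P) (κ : P → ℤ) : Prop where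
  triv : ∀ i, G.op i = i → κ (G.nxt i) = κ i
  cr : ∀ i, G.op i ≠ i → G.lf i = true →
    κ i = κ (G.op i) + 1 ∧ κ (G.nxt i) = κ (G.op i) ∧ κ (G.nxt (G.op i)) = κ (G.op i) + 1

/-- The left eigenvector of the walk. -/
def wv (u : Rˣ) (κ : P → ℤ) (i : P) : R := ((u ^ (2 * κ i) : Rˣ) : R)

omit [Fintype P] [DecidableEq P] in
theorem wv_add_one (u : Rˣ) (κ : P → ℤ) {i j : P} (h : κ i = κ j + 1) : wv u κ i = wv u κ j * (u : R) ^ 2 := by
  unfold wv
  rw [h, mul_add, _root_.zpow_add, Units.val_mul]
  congr 1

theorem sum_two (f : P → R) (j : P) (hj : G.op j ≠ j) (hf : ∀ i, i ≠ j → i ≠ G.op j → f i = 0) :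
    ∑ i, f i = f j + f (G.op j) := by
  rw [← Finset.add_sum_erase _ _ (Finset.mem_univ j), ← Finset.add_sum_erase _ _
    (Finset.mem_erase.2 ⟨hj, Finset.mem_univ (G.op j)⟩), Finset.sum_eq_zero, add_zero]
  intro i hi
  rw [Finset.mem_erase, Finset.mem_erase] at hi
  exact hf i hi.2.1 hi.1

omit [Fintype P] in
theorem U_zero (s t : R) (D : Dg G) {i j : P} (h1 : i ≠ j) (h2 : i ≠ G.op j) : U G.op (kd s t D) i j = 0 := by
  have h3 : j ≠ G.op i := fun e => h2 (by rw [e, G.op_op])
  unfold U
  cases kd s t D i with
  | ov q => simp [Ne.symm h1, h3]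
  | un => simp [Ne.symm h1]
  | sm => simp [h3]

theorem wv_B {κ : P → ℤ} (hκ : Ix G κ) (u : Rˣ) (D : Dg G) :
    wv u κ ᵥ* B G.nxt G.op (kd (u : R) ((u⁻¹ : Rˣ) : R) D) = wv u κ := by
  funext j'
  obtain ⟨j, rfl⟩ := G.nxt.surjective j'
  have e : (wv u κ ᵥ* B G.nxt G.op (kd (u : R) ((u⁻¹ : Rˣ) : R) D)) (G.nxt j) =
      ∑ i, wv u κ i * U G.op (kd (u : R) ((u⁻¹ : Rˣ) : R) D) i j := by
    simp [vecMul, dotProduct, B]
  rw [e]
  have hu : (u : R) ^ 2 * ((u⁻¹ : Rˣ) : R) ^ 2 = 1 := by
    rw [← mul_pow, Units.mul_inv, one_pow]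
  by_cases hj : G.op j = j
  · have h1 : ∀ i, i ≠ j → wv u κ i * U G.op (kd (u : R) ((u⁻¹ : Rˣ) : R) D) i j = 0 := by
      intro i hi
      rw [U_zero _ _ D hi (by rw [hj]; exact hi), mul_zero]
    rw [Finset.sum_eq_single j (fun i _ hi => h1 i hi) (fun h => absurd (Finset.mem_univ j) h)]
    have h2 : U G.op (kd (u : R) ((u⁻¹ : Rˣ) : R) D) j j = 1 := by
      unfold U
      cases kd (u : R) ((u⁻¹ : Rˣ) : R) D j with
      | ov q => simp [hj]
      | un => simp
      | sm => simp [hj]
    rw [h2, mul_one, wv, wv, hκ.triv j hj]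
  · rw [sum_two (G := G) _ j hj fun i h1 h2 => by rw [U_zero _ _ D h1 h2, mul_zero]]
    have hoj : j ≠ G.op j := Ne.symm hj
    cases hl : G.lf j
    · have hlo : G.lf (G.op j) = true := by rw [G.lf_op j hj, hl]; rfl
      obtain ⟨k1, k2, k3⟩ := hκ.cr (G.op j) (by rw [G.op_op]; exact hoj) hlo
      rw [G.op_op] at k1 k2 k3
      rw [wv_add_one u κ k1, wv_add_one u κ k3]
      cases hs : D.st j
      · have e1 : kd (u : R) ((u⁻¹ : Rˣ) : R) D j = .ov ((u : R) ^ 2) := by simp [kd, hs, hl]
        have e2 : kd (u : R) ((u⁻¹ : Rˣ) : R) D (G.op j) = .un := by simp [kd, D.st_op, hs, hlo]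
        simp only [U, e1, e2, if_neg hoj]
        simp
      · have e1 : kd (u : R) ((u⁻¹ : Rˣ) : R) D j = .un := by simp [kd, hs, hl]
        have e2 : kd (u : R) ((u⁻¹ : Rˣ) : R) D (G.op j) = .ov (((u⁻¹ : Rˣ) : R) ^ 2) := by simp [kd, D.st_op, hs, hlo]
        simp only [U, e1, e2, if_neg hoj, G.op_op]
        simp only [if_true]
        linear_combination (-wv u κ j) * hu
      · have e1 : kd (u : R) ((u⁻¹ : Rˣ) : R) D j = .sm := by simp [kd, hs]
        have e2 : kd (u : R) ((u⁻¹ : Rˣ) : R) D (G.op j) = .sm := by simp [kd, D.st_op, hs]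
        simp only [U, e1, e2, if_neg hoj, G.op_op]
        simp
    · have hlo : G.lf (G.op j) = false := by rw [G.lf_op j hj, hl]; rfl
      obtain ⟨k1, k2, k3⟩ := hκ.cr j hj hl
      have k2' : wv u κ (G.nxt j) = wv u κ (G.op j) := by rw [wv, wv, k2]
      rw [wv_add_one u κ k1, k2']
      cases hs : D.st j
      · have e1 : kd (u : R) ((u⁻¹ : Rˣ) : R) D j = .un := by simp [kd, hs, hl]
        have e2 : kd (u : R) ((u⁻¹ : Rˣ) : R) D (G.op j) = .ov ((u : R) ^ 2) := by simp [kd, D.st_op, hs, hlo]
        simp only [U, e1, e2, if_neg hoj, G.op_op]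
        simp only [if_true]
        ring
      · have e1 : kd (u : R) ((u⁻¹ : Rˣ) : R) D j = .ov (((u⁻¹ : Rˣ) : R) ^ 2) := by simp [kd, hs, hl]
        have e2 : kd (u : R) ((u⁻¹ : Rˣ) : R) D (G.op j) = .un := by simp [kd, D.st_op, hs, hlo]
        simp only [U, e1, e2, if_neg hoj]
        simp only [if_true]
        linear_combination (wv u κ (G.op j)) * hu
      · have e1 : kd (u : R) ((u⁻¹ : Rˣ) : R) D j = .sm := by simp [kd, hs]
        have e2 : kd (u : R) ((u⁻¹ : Rˣ) : R) D (G.op j) = .sm := by simp [kd, D.st_op, hs]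
        simp only [U, e1, e2, if_neg hoj, G.op_op]
        simp

/-- The dependence on the base point. -/
theorem F_base {κ : P → ℤ} (hκ : Ix G κ) (u : Rˣ) (D : Dg G) (b b' : P) :
    F (u : R) ((u⁻¹ : Rˣ) : R) b D * wv u κ b' = wv u κ b * F (u : R) ((u⁻¹ : Rˣ) : R) b' D := by
  have hB := wv_B hκ u D
  set M := B G.nxt G.op (kd (u : R) ((u⁻¹ : Rˣ) : R) D) with hM
  have h1 : (1 - M) *ᵥ 1 = 0 := by rw [sub_mulVec, one_mulVec, hM, B_mulVec_one, sub_self]
  have hW : ∀ x : P, W G.nxt G.op (kd (u : R) ((u⁻¹ : Rˣ) : R) D) x = adjugate (1 - M) x x := by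
    intro x
    unfold W
    rw [Burau.det_add_single, Burau.det_eq_zero_of_mulVec (u := 1) (i := x) rfl h1, zero_add]
  have hw1 : wv u κ b' * ((u ^ (-(2 * κ b')) : Rˣ) : R) = 1 := by
    unfold wv
    rw [← Units.val_mul, ← _root_.zpow_add, add_neg_cancel, zpow_zero, Units.val_one]
  have h2 : (fun i => wv u κ i * ((u ^ (-(2 * κ b')) : Rˣ) : R)) ᵥ* (1 - M) = 0 := by
    have e : (fun i => wv u κ i * ((u ^ (-(2 * κ b')) : Rˣ) : R)) = ((u ^ (-(2 * κ b')) : Rˣ) : R) • wv u κ := by
      funext i
      simp [mul_comm]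
    rw [e, smul_vecMul, vecMul_sub, vecMul_one, hB, sub_self, smul_zero]
  have h3 := Burau.adjugate_of_vecMul (o := b') hw1 h2 b' b
  have h4 := Burau.adjugate_of_mulVec (u := 1) (o := b') rfl h1 b b
  unfold F
  rw [hW, hW, h4, h3, Pi.one_apply]
  linear_combination (scal (u : R) ((u⁻¹ : Rˣ) : R) D * wv u κ b * adjugate (1 - M) b' b') * hw1

theorem F_split_all {κ : P → ℤ} (hκ : Ix G κ) (u : Rˣ) (b : P) (D : Dg G) (C : Finset P) (hC : C.Nonempty) (hC' : C ≠ Finset.univ)
    (hcl : ∀ i, D.tr i ∈ C ↔ i ∈ C) (hab : ∀ i ∈ C, G.op i ∉ C → D.st i ≠ .smooth → D.ovr i = true) :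
    F (u : R) ((u⁻¹ : Rˣ) : R) b D = 0 := by
  obtain ⟨b', hb'⟩ := hC
  have h0 : F (u : R) ((u⁻¹ : Rˣ) : R) b' D = 0 := by
    unfold F
    rw [W_split G.nxt G.op _ b' (fun i => i ∈ C) hb', mul_zero]
    · by_contra hcon
      push Not at hcon
      exact hC' (Finset.eq_univ_iff_forall.2 hcon)
    · intro i hi j hj
      by_contra hB
      rcases B_ne_zero _ _ D hB with rfl | ⟨h1, h2, h3, rfl⟩
      · exact hi ((hcl i).1 hj)
      · have h4 := (hcl _).1 hj
        have h5 := hab _ h4 (by rw [G.op_op]; exact hi) (by rw [D.st_op]; exact h2)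
        rw [ovr_op D i h1 h2, h3] at h5
        exact absurd h5 (by simp)
  have h1 := F_base hκ u D b b'
  rw [h0, mul_zero] at h1
  have h2 : IsUnit (wv u κ b') := Units.isUnit _
  exact (h2.mul_left_eq_zero).1 h1

/-- Moving the base point. -/
theorem knot_all {z : R} {f : Dg G → R} (hsk : ∀ (D : Dg G) (i : P), G.op i ≠ i →
      f (D.upd i .pos) - f (D.upd i .neg) = z * f (D.upd i .smooth))
    (hsp : ∀ (D : Dg G) (C : Finset P), C.Nonempty → C ≠ Finset.univ → (∀ i, D.tr i ∈ C ↔ i ∈ C) →
      (∀ i ∈ C, G.op i ∉ C → D.st i ≠ .smooth → D.ovr i = true) → f D = 0)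
    {c : R} (b : P) (hk : ∀ D : Dg G, (∀ i, ∃ k : ℕ, D.tr^[k] b = i) → Des D b → f D = c) :
    ∀ (k : ℕ) (D : Dg G), (∀ i, ∃ k : ℕ, D.tr^[k] b = i) → Des D (D.tr^[k] b) → f D = c := by
  classical
  intro k
  induction k with
  | zero => exact hk
  | succ k ih =>
    intro D hall hD
    obtain ⟨a, ha⟩ : ∃ a, a = D.tr^[k] b := ⟨_, rfl⟩
    have ha2 : D.tr^[k + 1] b = D.tr a := by rw [Function.iterate_succ_apply', ha]
    rw [ha2] at hD
    have hback : ∀ l : ℕ, D.tr^[l] (D.tr a) = D.tr^[l + 1] a := fun l => (Function.iterate_succ_apply D.tr l a).symm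
    by_cases htriv : G.op a = a ∨ D.st a = .smooth
    · refine ih D hall ?_
      rw [← ha]
      intro l hl1 hl2
      cases l with
      | zero =>
        rw [Function.iterate_zero_apply] at hl1 hl2
        rcases htriv with h1 | h1
        · exact absurd (hl2 0 le_rfl) (by rw [Function.iterate_zero_apply, h1]; simp)
        · exact absurd h1 hl1
      | succ l =>
        rw [← hback] at hl1 hl2 ⊢
        refine hD l hl1 fun m hm => ?_
        have h2 := hl2 (m + 1) (by omega)
        rwa [← hback] at h2
    · rw [not_or] at htriv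
      obtain ⟨hoa, hsa⟩ := htriv
      -- the orbit of `a`
      obtain ⟨n, hn, _, hper⟩ := tr_period D b
      have hreach : ∀ x y : P, ∃ l : ℕ, D.tr^[l] x = y := by
        intro x y
        obtain ⟨p, hp⟩ := hall x
        obtain ⟨q, hq⟩ := hall y
        have h1 : ∀ r : ℕ, D.tr^[n * r] b = b := by
          intro r
          induction r with
          | zero => rfl
          | succ r ihr => rw [Nat.mul_succ, Function.iterate_add_apply, hper, ihr]
        have h2 : p ≤ n * p := Nat.le_mul_of_pos_left p hn
        refine ⟨q + (n * p - p), ?_⟩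
        rw [← hp, ← Function.iterate_add_apply, show q + (n * p - p) + p = q + n * p by omega,
          Function.iterate_add_apply, h1, hq]
      have hex := hreach (D.tr a) (G.op a)
      let m := Nat.find hex
      have hm : D.tr^[m] (D.tr a) = G.op a := Nat.find_spec hex
      have hmin : ∀ l < m, D.tr^[l] (D.tr a) ≠ G.op a := fun l hl => Nat.find_min hex hl
      have hna : ∀ l ≤ m, D.tr^[l] (D.tr a) ≠ a := by
        intro l hl e
        rcases Nat.lt_or_eq_of_le hl with h1 | h1
        · have h2 : D.tr^[l + 1] (D.tr a) = D.tr a := by rw [Function.iterate_succ_apply', e]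
          have h3 := closed_orbit D (D.tr a) h2 m
          rw [hm] at h3
          exact hmin _ ((Nat.mod_lt m (by omega)).trans_le (by omega)) h3.symm
        · rw [h1, hm] at e
          exact hoa e
      have hov : D.ovr (G.op a) = true := by
        have h1 := hD m (by rw [hm, D.st_op]; exact hsa) (by
          intro l hl
          rw [hm, G.op_op]
          exact hna l hl)
        rwa [hm] at h1
      have hova : D.ovr a = false := by
        rw [ovr_op D a hoa hsa] at hov
        simpa using hov
      -- the value of the smoothed diagram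
      have hzero : f (D.upd a .smooth) = 0 := by
        have hst0 : ∀ x, x ≠ a → x ≠ G.op a → (D.upd a .smooth).st x = D.st x := fun x h1 h2 => upd_st_ne D a .smooth x h1 h2
        have htr : ∀ l ≤ m, (D.upd a .smooth).tr^[l] (D.tr a) = D.tr^[l] (D.tr a) := by
          refine iterate_congr D (D.upd a .smooth) (D.tr a) m ?_
          intro l hl
          rw [hst0 _ (hna l hl.le) (hmin l hl)]
        have hclose : (D.upd a .smooth).tr^[m + 1] (D.tr a) = D.tr a := by
          rw [Function.iterate_succ_apply', htr m le_rfl, hm]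
          change G.nxt (if (D.upd a .smooth).st (G.op a) = .smooth then G.op (G.op a) else G.op a) = D.tr a
          rw [if_pos (st_upd_op D a .smooth), G.op_op]
          change G.nxt a = G.nxt (if D.st a = .smooth then G.op a else a)
          rw [if_neg hsa]
        have horb : ∀ l : ℕ, ∃ l' ≤ m, (D.upd a .smooth).tr^[l] (D.tr a) = D.tr^[l'] (D.tr a) := by
          intro l
          have h1 : l % (m + 1) < m + 1 := Nat.mod_lt _ (by omega)
          exact ⟨l % (m + 1), by omega, by rw [closed_orbit _ _ hclose l, htr _ (by omega)]⟩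
        let C : Finset P := Finset.univ.filter fun x => ∃ l : ℕ, (D.upd a .smooth).tr^[l] (D.tr a) = x
        have hCmem : ∀ x, x ∈ C ↔ ∃ l : ℕ, (D.upd a .smooth).tr^[l] (D.tr a) = x := fun x => by simp [C]
        refine hsp _ C ⟨D.tr a, (hCmem _).2 ⟨0, rfl⟩⟩ ?_ ?_ ?_
        · intro e
          obtain ⟨l, hl⟩ := (hCmem a).1 (e ▸ Finset.mem_univ a)
          obtain ⟨l', h1, h2⟩ := horb l
          exact hna l' h1 (h2.symm.trans hl)
        · intro x
          rw [hCmem, hCmem]
          constructor
          · rintro ⟨l, hl⟩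
            refine ⟨l + m, ?_⟩
            have h1 : (D.upd a .smooth).tr^[l + (m + 1)] (D.tr a) = (D.upd a .smooth).tr x := by
              rw [Function.iterate_add_apply, hclose, hl]
            rw [← add_assoc, Function.iterate_succ_apply'] at h1
            exact tr_inj _ h1
          · rintro ⟨l, hl⟩
            exact ⟨l + 1, by rw [Function.iterate_succ_apply', hl]⟩
        · intro x hx hox hsx
          obtain ⟨l, hl⟩ := (hCmem x).1 hx
          obtain ⟨l', h1, h2⟩ := horb l
          have hxa : x ≠ a := by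
            rw [← hl, h2]
            exact hna l' h1
          have hxo : x ≠ G.op a := by
            intro e
            apply hsx
            rw [e]
            exact st_upd_op D a .smooth
          have h3 : D.tr^[l'] (D.tr a) = x := h2.symm.trans hl
          have h4 := hD l' (by rw [h3, ← hst0 x hxa hxo]; exact hsx) (by
            intro j hj e
            apply hox
            rw [hCmem, ← h3, ← e]
            exact ⟨j, htr j (by omega)⟩)
          rw [h3] at h4
          rw [← h4]
          unfold Dg.ovr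
          rw [hst0 x hxa hxo]
      -- the diagram with the crossing of `a` changed
      have hmain : ∀ u : St, u ≠ .smooth → (D.upd a u).ovr a = true → f (D.upd a u) = c := by
        intro u hu hu1
        have hsm : ∀ x, ((D.upd a u).st x = .smooth ↔ D.st x = .smooth) := by
          intro x
          by_cases hx : x = a ∨ x = G.op a
          · rw [upd_st D a u x hx]
            have h5 : D.st x ≠ .smooth := by
              rcases hx with rfl | rfl
              · exact hsa
              · rw [D.st_op]; exact hsa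
            exact iff_of_false hu h5
          · rw [not_or] at hx
            rw [upd_st_ne D a u x hx.1 hx.2]
        have htr : (D.upd a u).tr = D.tr := funext fun x => tr_congr D (D.upd a u) x (hsm x)
        refine ih _ (by rw [htr]; exact hall) ?_
        rw [htr, ← ha]
        intro l hl1 hl2
        rw [htr] at hl1 hl2 ⊢
        cases l with
        | zero => exact hu1
        | succ l =>
          rw [← hback] at hl1 hl2 ⊢
          obtain ⟨x, hx⟩ : ∃ x, x = D.tr^[l] (D.tr a) := ⟨_, rfl⟩
          rw [← hx] at hl1 hl2 ⊢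
          by_cases hxa : x = a
          · rw [hxa]
            exact hu1
          · have hxo : x ≠ G.op a := by
              intro e
              apply hl2 0 (by omega)
              rw [Function.iterate_zero_apply, e, G.op_op]
            have h6 := hD l (by rw [← hx]; exact fun h => hl1 ((hsm x).2 h)) (by
              intro j hj
              rw [← hx, hback]
              exact hl2 (j + 1) (by omega))
            rw [← hx] at h6
            rw [← h6]
            unfold Dg.ovr
            rw [upd_st_ne D a u x hxa hxo]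
      have hskD := hsk D a hoa
      rw [hzero, mul_zero, sub_eq_zero] at hskD
      have hself := upd_self D a
      cases hs : D.st a
      · rw [hs] at hself
        have h7 : G.lf a = true := by
          unfold Dg.ovr at hova
          rw [hs] at hova
          simpa using hova
        rw [← hself, hskD]
        exact hmain .neg (by simp) (by
          unfold Dg.ovr
          rw [st_upd_self]
          exact h7)
      · rw [hs] at hself
        have h7 : G.lf a = false := by
          unfold Dg.ovr at hova
          rw [hs] at hova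
          exact hova
        rw [← hself, ← hskD]
        exact hmain .pos (by simp) (by
          unfold Dg.ovr
          rw [st_upd_self]
          change (!G.lf a) = true
          rw [h7]
          rfl)
      · exact absurd hs hsa

end Pool.Agent.Helper60.EV2
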