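import Pool.Agent.Helper60.Burau.Adj

/-!
# The walk determinant of a link diagram (no planarity)

`P` is the finite set of the passages (the edges entering the crossings), `nxt` the next passage along the link, `op` the other passage of the same crossing (`op i = i`: a passage without a
crossing). A passage is over, under, smoothed or trivial; `U` is the transition matrix of the walk from the passages to the outgoing edges (named after the passage on the same strand).
-/

set_option autoImplicit false

namespace Pool.Agent.Helper60.EV2

open Matrix

/-- The kind of a passage: over with the parameter `q`, under, smoothed or trivial. -/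
inductive Kd (R : Type*)
  | ov (q : R)
  | un
  | sm

variable {P : Type*} [Fintype P] [DecidableEq P] {R : Type*} [CommRing R]

/-- The transitions from the passages to the outgoing edges. -/
def U (op : P → P) (kd : P → Kd R) : Matrix P P R := fun i j =>
  match kd i with
  | .ov q => (if j = i then q else 0) + if j = op i then 1 - q else 0
  | .un => if j = i then 1 else 0
  | .sm => if j = op i then 1 else 0

/-- The transition matrix of the walk. -/
def B (nxt : Equiv.Perm P) (op : P → P) (kd : P → Kd R) : Matrix P P R := (U op kd).submatrix id nxt.symm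

/-- The determinant with the edge into `b` cut. -/
def W (nxt : Equiv.Perm P) (op : P → P) (kd : P → Kd R) (b : P) : R := (1 - B nxt op kd + single b b 1).det

theorem U_row_sum (op : P → P) (kd : P → Kd R) (i : P) : ∑ j, U op kd i j = 1 := by
  unfold U
  cases kd i with
  | ov q => simp [Finset.sum_add_distrib]
  | un => simp
  | sm => simp

theorem B_row_sum (nxt : Equiv.Perm P) (op : P → P) (kd : P → Kd R) (i : P) : ∑ j, B nxt op kd i j = 1 := by
  rw [← U_row_sum op kd i]
  exact Equiv.sum_comp nxt.symm fun j => U op kd i j

theorem B_mulVec_one (nxt : Equiv.Perm P) (op : P → P) (kd : P → Kd R) : B nxt op kd *ᵥ 1 = 1 := by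
  funext i
  have h := B_row_sum nxt op kd i
  simpa [mulVec, dotProduct] using h

omit [Fintype P] in
/-- The three matrices at a crossing. -/
theorem B_perturb (nxt : Equiv.Perm P) (op : P → P) (kd : P → Kd R) {o i : P} (hoi : o ≠ i) (ho : op o = i) (hi : op i = o)
    (s t : R) (hst : s * t = 1) :
    ∃ x y : P → R,
      B nxt op (Function.update (Function.update kd o (.ov (s ^ 2))) i .un) =
        B nxt op (Function.update (Function.update kd o .sm) i .sm) + (1 : R) • vecMulVec x y ∧
      B nxt op (Function.update (Function.update kd i (.ov (t ^ 2))) o .un) =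
        B nxt op (Function.update (Function.update kd o .sm) i .sm) + t ^ 2 • vecMulVec x y := by
  refine ⟨fun k => (if k = o then s ^ 2 else 0) - (if k = i then 1 else 0),
    fun k => (if nxt.symm k = o then 1 else 0) - (if nxt.symm k = i then 1 else 0), ?_, ?_⟩
  · ext k j
    simp only [B, submatrix_apply, id_eq, Matrix.add_apply, Matrix.smul_apply, vecMulVec_apply, smul_eq_mul, one_mul]
    by_cases hk : k = o
    · subst hk
      simp only [U, Function.update_self, Function.update_of_ne hoi, ho, if_pos, if_neg hoi]
      by_cases h1 : nxt.symm j = k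
      · have h2 : nxt.symm j ≠ i := fun h => hoi (h1.symm.trans h)
        simp [h1, hoi]
      · by_cases h2 : nxt.symm j = i
        · simp [h2, hoi.symm]
          ring
        · simp [h1, h2]
    · by_cases hk' : k = i
      · subst hk'
        simp only [U, Function.update_self, hi, if_neg (Ne.symm hoi)]
        by_cases h1 : nxt.symm j = k
        · simp [h1, hoi.symm]
        · by_cases h2 : nxt.symm j = o
          · simp [h2, hoi]
          · simp [h1, h2]
      · simp only [U, Function.update_of_ne hk', Function.update_of_ne hk, if_neg hk, if_neg hk']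
        ring
  · ext k j
    simp only [B, submatrix_apply, id_eq, Matrix.add_apply, Matrix.smul_apply, vecMulVec_apply, smul_eq_mul]
    have hst2 : t ^ 2 * s ^ 2 = 1 := by
      have : (s * t) ^ 2 = 1 := by rw [hst, one_pow]
      rw [← this]; ring
    by_cases hk : k = o
    · subst hk
      simp only [U, Function.update_self, Function.update_of_ne hoi, ho, if_pos, if_neg hoi]
      by_cases h1 : nxt.symm j = k
      · simp [h1, hoi]
        linear_combination -hst2
      · by_cases h2 : nxt.symm j = i
        · simp [h2, hoi.symm]
          linear_combination hst2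
        · simp [h1, h2]
    · by_cases hk' : k = i
      · subst hk'
        simp only [U, Function.update_self, Function.update_of_ne (Ne.symm hoi), hi, if_neg (Ne.symm hoi), if_pos]
        by_cases h1 : nxt.symm j = k
        · simp [h1, hoi.symm]
        · by_cases h2 : nxt.symm j = o
          · simp [h2, hoi]
            ring
          · simp [h1, h2]
      · simp only [U, Function.update_of_ne hk', Function.update_of_ne hk, if_neg hk, if_neg hk']
        ring

/-- The skein relation of the walk determinants. -/
theorem W_skein (nxt : Equiv.Perm P) (op : P → P) (kd : P → Kd R) {o i : P} (hoi : o ≠ i) (ho : op o = i) (hi : op i = o)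
    (s t : R) (hst : s * t = 1) (b : P) :
    t * W nxt op (Function.update (Function.update kd o (.ov (s ^ 2))) i .un) b -
      s * W nxt op (Function.update (Function.update kd i (.ov (t ^ 2))) o .un) b =
      (t - s) * W nxt op (Function.update (Function.update kd o .sm) i .sm) b := by
  obtain ⟨x, y, h1, h2⟩ := B_perturb nxt op kd hoi ho hi s t hst
  obtain ⟨D, hD⟩ := Burau.det_rank_one (1 - B nxt op (Function.update (Function.update kd o .sm) i .sm) +
    single b b 1) (-x) y
  have e : ∀ c : R, 1 - (B nxt op (Function.update (Function.update kd o .sm) i .sm) + c • vecMulVec x y) + single b b 1 =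
      (1 - B nxt op (Function.update (Function.update kd o .sm) i .sm) + single b b 1) + c • vecMulVec (-x) y := by
    intro c
    rw [neg_vecMulVec, smul_neg]
    abel
  unfold W
  rw [h1, h2, e, e, hD, hD]
  linear_combination (-(D * t)) * hst

/-- A part which the walk never leaves and which does not contain the cut. -/
theorem W_split (nxt : Equiv.Perm P) (op : P → P) (kd : P → Kd R) (b : P) (C : P → Prop) (hb : C b) (hne : ∃ i, ¬ C i)
    (h : ∀ i, ¬ C i → ∀ j, C j → B nxt op kd i j = 0) : W nxt op kd b = 0 := by
  classical
  unfold W
  have h1 : ∀ i, ¬ C i → ∀ j, C j → (1 - B nxt op kd + single b b 1 : Matrix P P R) i j = 0 := by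
    intro i hi j hj
    have hij : i ≠ j := fun e => hi (e ▸ hj)
    have hib : b ≠ i := fun e => hi (e ▸ hb)
    rw [Matrix.add_apply, Matrix.sub_apply, one_apply_ne hij, h i hi j hj, single_apply_of_row_ne hib]
    ring
  rw [twoBlockTriangular_det _ C h1]
  obtain ⟨i0, hi0⟩ := hne
  have h2 : (toSquareBlockProp (1 - B nxt op kd + single b b 1 : Matrix P P R) fun i => ¬ C i).det = 0 := by
    refine Burau.det_eq_zero_of_mulVec (u := 1) (i := ⟨i0, hi0⟩) rfl ?_
    funext i
    obtain ⟨i, hi⟩ := i
    have hib : b ≠ i := fun e => hi (e ▸ hb)
    have e1 : ∑ j : P, (1 - B nxt op kd + single b b 1 : Matrix P P R) i j = 0 := by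
      simp only [Matrix.add_apply, Matrix.sub_apply, Finset.sum_add_distrib, Finset.sum_sub_distrib, B_row_sum,
        single_apply_of_row_ne hib]
      simp [one_apply]
    have e2 : ∑ j : {j // ¬ C j}, (1 - B nxt op kd + single b b 1 : Matrix P P R) i j =
        ∑ j : P, (1 - B nxt op kd + single b b 1 : Matrix P P R) i j := by
      rw [← Fintype.sum_subtype_add_sum_subtype C]
      have e3 : ∑ j : {j // C j}, (1 - B nxt op kd + single b b 1 : Matrix P P R) i j = 0 :=
        Finset.sum_eq_zero fun j _ => h1 i hi j j.2
      rw [e3, zero_add]
    change ∑ j : {j // ¬ C j}, (1 - B nxt op kd + single b b 1 : Matrix P P R) i j * 1 = 0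
    simp only [mul_one]
    rw [e2, e1]
  rw [h2, mul_zero]

/-- A walk which only moves forward until it comes to the cut. -/
theorem W_forward (nxt : Equiv.Perm P) (op : P → P) (kd : P → Kd R) (b : P) (T : P → ℕ) (hT : Function.Injective T)
    (hb : ∀ i, T i ≤ T b) (h : ∀ i, i ≠ b → ∀ j, T j ≤ T i → B nxt op kd i j = 0) : W nxt op kd b = 1 := by
  unfold W
  rw [Burau.det_add_single, Burau.det_eq_zero_of_mulVec (u := 1) (i := b) rfl
    (by rw [sub_mulVec, one_mulVec, B_mulVec_one, sub_self]), zero_add, adjugate_apply]
  let _ : LinearOrder P := LinearOrder.lift' T hT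
  have hle : ∀ i j : P, i ≤ j ↔ T i ≤ T j := fun _ _ => Iff.rfl
  have hlt : ∀ i j : P, i < j → T i < T j := fun i j hij => by
    have h1 := (hle i j).1 hij.le
    have h2 : T i ≠ T j := fun e => hij.ne (hT e)
    omega
  rw [det_of_isUpperTriangular]
  · refine Finset.prod_eq_one fun i _ => ?_
    by_cases hi : i = b
    · subst hi
      rw [updateRow_self, Pi.single_eq_same]
    · rw [updateRow_ne hi, Matrix.sub_apply, one_apply_eq, h i hi i le_rfl, sub_zero]
  · intro i j hij
    have hij' : T j < T i := hlt j i hij
    by_cases hi : i = b
    · subst hi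
      rw [updateRow_self, Pi.single_apply, if_neg (fun e => by rw [e] at hij'; exact lt_irrefl _ hij')]
    · rw [updateRow_ne hi, Matrix.sub_apply, one_apply_ne (fun e => by rw [e] at hij'; exact lt_irrefl _ hij'),
        h i hi j hij'.le, sub_zero]

end Pool.Agent.Helper60.EV2
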